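import Pool.Agent.X112.SQ.A
import Pool.Agent.X112.SQ.D3

set_option autoImplicit false

noncomputable section

namespace Pool.Agent.Results.MP_d5c55f_an.SquareFunction

open Finset MeasureTheory
open scoped ENNReal NNReal

universe u

/-- `W_n = ∑_{k=1}^n d(k)`, with `d(k)` the number of divisors of `k` -/
def W (n : ℕ) : ℝ := ∑ k ∈ Icc 1 n, ((Nat.divisors k).card : ℝ)

/-- the divisor-weighted average `A_n f = (1 / W_n) ∑_{k=1}^n d(k) f ∘ τ^k` -/
def A {X : Type u} (τ : X → X) (f : X → ℂ) (n : ℕ) (x : X) : ℂ :=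
  (1 / (W n : ℂ)) * ∑ k ∈ Icc 1 n, ((Nat.divisors k).card : ℂ) * f (τ^[k] x)

/-- the square function `S_N(f)(x) = (∑_{j ≥ 1} |A_{n_{j+1}} f(x) - A_{n_j} f(x)|^2)^{1/2}`, with
values in `[0, ∞]`; the sequence `n_1, n_2, n_3, ...` is written `N 0, N 1, N 2, ...` -/
def squareFn {X : Type u} (τ : X → X) (N : ℕ → ℕ) (f : X → ℂ) (x : X) : ℝ≥0∞ :=
  (∑' j : ℕ, ‖A τ f (N (j + 1)) x - A τ f (N j) x‖ₑ ^ 2) ^ (1 / 2 : ℝ)

theorem W_eq (n : ℕ) : W n = X112.SQ.W n := by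
  unfold W X112.SQ.W
  rfl

/-- For every measure space, every measure-preserving map `τ`, every increasing sequence of
positive integers and every `f ∈ L²`, the square function of the divisor-weighted averages
satisfies `‖S_N(f)‖₂ ≤ 600 ‖f‖₂`. -/
theorem result (X : Type u) [MeasurableSpace X] (μ : Measure X) (τ : X → X)
    (hτ : MeasurePreserving τ μ μ) (N : ℕ → ℕ) (hN : Monotone N) (hN0 : 1 ≤ N 0)
    (f : X → ℂ) (hf : MemLp f 2 μ) :
    eLpNorm (squareFn τ N f) 2 μ ≤ 600 * eLpNorm f 2 μ := by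
  have hfm : AEMeasurable f μ := hf.1.aemeasurable
  have hWpos : ∀ j, 0 < W (N j) := fun j => by
    rw [W_eq]; exact X112.SQ.W_pos _ (hN0.trans (hN (Nat.zero_le j)))
  have hτj : ∀ j : ℕ, MeasurePreserving (τ^[j]) μ μ := fun j => hτ.iterate j
  have hfj : ∀ j : ℕ, AEMeasurable (fun x => f (τ^[j] x)) μ := by
    intro j
    have : AEMeasurable f (Measure.map (τ^[j]) μ) := by rw [(hτj j).map_eq]; exact hfm
    exact this.comp_aemeasurable (hτj j).measurable.aemeasurable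
  have hA : ∀ n, AEMeasurable (A τ f n) μ := by
    intro n
    unfold A
    refine AEMeasurable.const_mul ?_ _
    refine Finset.aemeasurable_fun_sum _ fun k _ => ?_
    exact (hfj k).const_mul _
  let c : ℕ → ℕ → ℂ := fun j k => ((Nat.divisors k).card : ℂ) *
    ((if k ≤ N (j + 1) then 1 / (W (N (j + 1)) : ℂ) else 0) -
      (if k ≤ N j then 1 / (W (N j) : ℂ) else 0))
  have hsum : ∀ (J j : ℕ) (g : ℕ → ℂ), j < J → ∑ k ∈ Icc 1 (N J), c j k * g k =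
      (1 / (W (N (j + 1)) : ℂ)) * ∑ k ∈ Icc 1 (N (j + 1)), ((Nat.divisors k).card : ℂ) * g k -
      (1 / (W (N j) : ℂ)) * ∑ k ∈ Icc 1 (N j), ((Nat.divisors k).card : ℂ) * g k := by
    intro J j g hj
    have key : ∀ M : ℕ, M ≤ N J → ∀ w : ℂ, ∑ k ∈ Icc 1 (N J),
        (if k ≤ M then w * (((Nat.divisors k).card : ℂ) * g k) else 0) =
        w * ∑ k ∈ Icc 1 M, ((Nat.divisors k).card : ℂ) * g k := by
      intro M hM w
      rw [← Finset.sum_filter, Finset.mul_sum]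
      refine Finset.sum_congr ?_ fun _ _ => rfl
      ext k
      simp only [Finset.mem_filter, Finset.mem_Icc]
      omega
    rw [← key (N (j + 1)) (hN hj) _, ← key (N j) (hN hj.le) _, ← Finset.sum_sub_distrib]
    refine Finset.sum_congr rfl fun k _ => ?_
    show ((Nat.divisors k).card : ℂ) * ((if k ≤ N (j + 1) then 1 / (W (N (j + 1)) : ℂ) else 0) -
      (if k ≤ N j then 1 / (W (N j) : ℂ) else 0)) * g k = _
    split_ifs <;> ring
  have hmain : ∀ J, ∑ j ∈ range J, ∫⁻ x, ‖A τ f (N (j + 1)) x - A τ f (N j) x‖ₑ ^ 2 ∂μ ≤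
      ENNReal.ofReal (24 * 13088) * ∫⁻ x, ‖f x‖ₑ ^ 2 ∂μ := by
    intro J
    have h := X112.SQ.trans J (N J) c (24 * 13088) (by norm_num) (by
      intro t
      refine le_trans (le_of_eq ?_) (X112.SQ.multiplier t N hN hN0 J)
      refine Finset.sum_congr rfl fun j hj => ?_
      rw [hsum J j (fun n => X112.SQ.ee (n * t)) (Finset.mem_range.1 hj)]
      have e : ∀ n, (1 / (W n : ℂ)) * ∑ k ∈ Icc 1 n, ((Nat.divisors k).card : ℂ) *
          X112.SQ.ee (k * t) = X112.SQ.av t n := by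
        intro n
        unfold X112.SQ.av X112.SQ.D
        rw [W_eq, one_div, inv_mul_eq_div]
        rfl
      rw [e, e]) μ τ hτ f hfm
    have e1 : ∀ z : ℂ, ENNReal.ofReal (‖z‖ ^ 2) = ‖z‖ₑ ^ 2 := by
      intro z
      rw [ENNReal.ofReal_pow (norm_nonneg _), ofReal_norm]
    simp only [e1] at h
    refine le_trans (le_of_eq ?_) h
    refine Finset.sum_congr rfl fun j hj => ?_
    refine lintegral_congr fun x => ?_
    rw [hsum J j (fun n => f (τ^[n] x)) (Finset.mem_range.1 hj)]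
    rfl
  have hS : ∫⁻ x, (squareFn τ N f x) ^ (2 : ℝ) ∂μ ≤
      ENNReal.ofReal (24 * 13088) * ∫⁻ x, ‖f x‖ₑ ^ 2 ∂μ := by
    have e1 : ∀ x, (squareFn τ N f x) ^ (2 : ℝ) =
        ∑' j : ℕ, ‖A τ f (N (j + 1)) x - A τ f (N j) x‖ₑ ^ 2 := by
      intro x
      unfold squareFn
      rw [← ENNReal.rpow_mul]
      norm_num
    simp only [e1]
    rw [lintegral_tsum]
    · exact ENNReal.tsum_le_of_sum_range_le hmain
    · intro j
      exact (((hA _).sub (hA _)).enorm).pow_const 2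
  have e2 : eLpNorm (squareFn τ N f) 2 μ = (∫⁻ x, (squareFn τ N f x) ^ (2 : ℝ) ∂μ) ^ (1 / 2 : ℝ) := by
    rw [eLpNorm_eq_lintegral_rpow_enorm_toReal (by norm_num) (by norm_num)]
    simp
  have e3 : eLpNorm f 2 μ = (∫⁻ x, ‖f x‖ₑ ^ 2 ∂μ) ^ (1 / 2 : ℝ) := by
    rw [eLpNorm_eq_lintegral_rpow_enorm_toReal (by norm_num) (by norm_num)]
    simp
  rw [e2, e3]
  calc (∫⁻ x, (squareFn τ N f x) ^ (2 : ℝ) ∂μ) ^ (1 / 2 : ℝ)
      ≤ (ENNReal.ofReal (24 * 13088) * ∫⁻ x, ‖f x‖ₑ ^ 2 ∂μ) ^ (1 / 2 : ℝ) := by gcongr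
    _ ≤ ((600 : ℝ≥0∞) ^ (2 : ℝ) * ∫⁻ x, ‖f x‖ₑ ^ 2 ∂μ) ^ (1 / 2 : ℝ) := by
        gcongr
        rw [show (24 * 13088 : ℝ) = ((314112 : ℕ) : ℝ) by norm_num, ENNReal.ofReal_natCast]
        norm_num
    _ = (600 : ℝ≥0∞) * (∫⁻ x, ‖f x‖ₑ ^ 2 ∂μ) ^ (1 / 2 : ℝ) := by
        rw [ENNReal.mul_rpow_of_nonneg _ _ (by norm_num), ← ENNReal.rpow_mul]
        norm_num

end Pool.Agent.Results.MP_d5c55f_an.SquareFunction
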